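import Mathlib

set_option autoImplicit false

namespace Pool.Agent.Results.MP_7100ec_nt.NotMonotone

/-- The Gauss map on positive reals: the fractional part of `1 / y`. -/
noncomputable def gaussMap (y : ℝ) : ℝ := Int.fract y⁻¹

/-- The `n`-th partial quotient (`n ≥ 1`) of the regular continued fraction of `y`;
it is `none` if `y` does not lie in `(0, 1]`, or if `y` has fewer than `n` partial quotients
(that is, the Gauss algorithm has already reached `0`), or if `n = 0`. -/
noncomputable def pq (y : ℝ) (n : ℕ) : Option ℕ :=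
  open Classical in
  if 1 ≤ n ∧ 0 < y ∧ y ≤ 1 ∧ gaussMap^[n - 1] y ≠ 0 then
    some ⌊(gaussMap^[n - 1] y)⁻¹⌋₊
  else none

/-- The value of the finite continued fraction `[a₁, …, aₙ]`. -/
noncomputable def cfVal : List ℕ → ℝ
  | [] => 0
  | a :: l => 1 / ((a : ℝ) + cfVal l)

/-- The procedure of the problem.  `terms x k` is the state after `k + 1` terms of the merged
sequence `c₁, b₁, c₂, b₂, …` have been computed: the list of the computed `cᵢ` and the list of
the computed `bᵢ`; it is `none` if the procedure has stopped before. -/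
noncomputable def terms (x : ℝ) : ℕ → Option (List ℕ × List ℕ)
  | 0 => (pq x 1).map (fun a => ([a + 1], []))
  | k + 1 =>
    match terms x k with
    | none => none
    | some (c, b) =>
      if b.length < c.length then
        (pq (x - cfVal c) c.length).map (fun a => (c, b ++ [a]))
      else
        (pq (x - cfVal b) (b.length + 1)).map (fun a => (c ++ [a + 1], b))

theorem pq_one {y : ℝ} (h0 : 0 < y) (h1 : y ≤ 1) {a : ℕ} (ha : (a : ℝ) ≤ y⁻¹)
    (ha' : y⁻¹ < a + 1) : pq y 1 = some a := by
  unfold pq
  rw [if_pos]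
  · simp only [Nat.sub_self, Function.iterate_zero, id_eq]
    congr 1
    exact (Nat.floor_eq_iff (by positivity)).2 ⟨ha, ha'⟩
  · refine ⟨le_refl _, h0, h1, ?_⟩
    simpa using h0.ne'

theorem pq_two {y : ℝ} (h0 : 0 < y) (h1 : y ≤ 1) {a b : ℕ} (ha : (a : ℝ) < y⁻¹)
    (ha' : y⁻¹ < a + 1) (hb : (b : ℝ) ≤ (y⁻¹ - a)⁻¹) (hb' : (y⁻¹ - a)⁻¹ < b + 1) :
    pq y 2 = some b := by
  have hG : gaussMap y = y⁻¹ - a := by
    unfold gaussMap
    have : ⌊y⁻¹⌋ = (a : ℤ) := by
      rw [Int.floor_eq_iff]
      constructor
      · push_cast; exact ha.le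
      · push_cast; exact ha'
    rw [Int.fract, this]
    push_cast
    ring
  unfold pq
  rw [if_pos]
  · have : gaussMap^[2 - 1] y = y⁻¹ - a := by simpa using hG
    rw [this]
    congr 1
    have hpos : 0 < y⁻¹ - a := by linarith
    exact (Nat.floor_eq_iff (by positivity)).2 ⟨hb, hb'⟩
  · refine ⟨by norm_num, h0, h1, ?_⟩
    have : gaussMap^[2 - 1] y = y⁻¹ - a := by simpa using hG
    rw [this]
    have hpos : 0 < y⁻¹ - a := by linarith
    exact hpos.ne'

/-- For every `x` in the open interval `(0.247675, 0.247677)` the procedure starts with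
`c₁ = 5, b₁ = 20, c₂ = 18, b₂ = 19`. -/
theorem terms_three {x : ℝ} (h1 : 247675 / 1000000 < x) (h2 : x < 247677 / 1000000) :
    terms x 3 = some ([5, 18], [20, 19]) := by
  have hx0 : 0 < x := by linarith
  have e0 : pq x 1 = some 4 := by
    apply pq_one hx0 (by linarith)
    · rw [le_inv_comm₀ (by norm_num) hx0]; push_cast; linarith
    · rw [inv_lt_comm₀ hx0 (by positivity)]; push_cast; norm_num; linarith
  have v1 : cfVal [5] = 1 / 5 := by simp [cfVal]
  have e1 : pq (x - cfVal [5]) 1 = some 20 := by
    rw [v1]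
    have hy : 0 < x - 1 / 5 := by linarith
    apply pq_one hy (by linarith)
    · rw [le_inv_comm₀ (by norm_num) hy]; push_cast; linarith
    · rw [inv_lt_comm₀ hy (by positivity)]; push_cast; norm_num; linarith
  have v2 : cfVal [20] = 1 / 20 := by simp [cfVal]
  have e2 : pq (x - cfVal [20]) 2 = some 17 := by
    rw [v2]
    have hy : 0 < x - 1 / 20 := by linarith
    have k1 : (x - 1 / 20)⁻¹ < 5 + 1 / 17 := by
      rw [inv_lt_comm₀ hy (by positivity)]; norm_num; linarith
    have k2 : 5 + 1 / 18 < (x - 1 / 20)⁻¹ := by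
      rw [lt_inv_comm₀ (by positivity) hy]; norm_num; linarith
    apply pq_two (a := 5) hy (by linarith)
    · push_cast; linarith
    · push_cast; linarith
    · have : 0 < (x - 1 / 20)⁻¹ - ((5 : ℕ) : ℝ) := by push_cast; linarith
      rw [le_inv_comm₀ (by norm_num) this]; push_cast; norm_num; linarith
    · have : 0 < (x - 1 / 20)⁻¹ - ((5 : ℕ) : ℝ) := by push_cast; linarith
      rw [inv_lt_comm₀ this (by positivity)]; push_cast; norm_num; linarith
  have v3 : cfVal [5, 18] = 18 / 91 := by norm_num [cfVal]
  have e3 : pq (x - cfVal [5, 18]) 2 = some 19 := by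
    rw [v3]
    have hy : 0 < x - 18 / 91 := by linarith
    have k1 : (x - 18 / 91)⁻¹ < 20 + 1 / 19 := by
      rw [inv_lt_comm₀ hy (by positivity)]; norm_num; linarith
    have k2 : 20 + 1 / 20 < (x - 18 / 91)⁻¹ := by
      rw [lt_inv_comm₀ (by positivity) hy]; norm_num; linarith
    apply pq_two (a := 20) hy (by linarith)
    · push_cast; linarith
    · push_cast; linarith
    · have : 0 < (x - 18 / 91)⁻¹ - ((20 : ℕ) : ℝ) := by push_cast; linarith
      rw [le_inv_comm₀ (by norm_num) this]; push_cast; norm_num; linarith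
    · have : 0 < (x - 18 / 91)⁻¹ - ((20 : ℕ) : ℝ) := by push_cast; linarith
      rw [inv_lt_comm₀ this (by positivity)]; push_cast; norm_num; linarith
  have t0 : terms x 0 = some ([5], []) := by
    simp [terms, e0]
  have t1 : terms x 1 = some ([5], [20]) := by
    rw [terms, t0]
    simp [e1]
  have t2 : terms x 2 = some ([5, 18], [20]) := by
    rw [terms, t1]
    simp [e2]
  rw [terms, t2]
  simp [e3]

/-- The question of the problem has a negative answer: it is not true that for every
`x ∈ (0, 1]` both sequences produced by the procedure are non-decreasing.  More precisely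
for every `x` in the open interval `(0.247675, 0.247677)` the procedure produces
`c₁ = 5, b₁ = 20, c₂ = 18, b₂ = 19`, so that `b₂ < b₁`. -/
theorem result :
    (∀ x ∈ Set.Ioo (247675 / 1000000 : ℝ) (247677 / 1000000),
      terms x 3 = some ([5, 18], [20, 19])) ∧
    ¬ (∀ x ∈ Set.Ioc (0 : ℝ) 1, ∀ (k : ℕ) (c b : List ℕ), terms x k = some (c, b) →
        List.Pairwise (· ≤ ·) c ∧ List.Pairwise (· ≤ ·) b) := by
  refine ⟨fun x hx => terms_three hx.1 hx.2, fun h => ?_⟩
  have h3 := h (247676 / 1000000) ⟨by norm_num, by norm_num⟩ 3 [5, 18] [20, 19]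
    (terms_three (by norm_num) (by norm_num))
  have := h3.2
  simp at this

end Pool.Agent.Results.MP_7100ec_nt.NotMonotone
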